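import Mathlib
import Pool.Agent.H38R3.TPDefs
import Pool.Agent.H38R3.TPMain

namespace Pool.Agent.Results.MP_ebc4cb_lc.PathCardinalsNonempty

open Cardinal Ordinal Pool.H38R3.TransPath

universe u

/-- `ℶ_{ω₂}` belongs to the class `ℙ` of infinite cardinals `κ` such that every colouring of the
edges of the complete graph on `κ` vertices with countably many colours has a monochromatic
transfinite path of size `κ`; more precisely every singular strong limit cardinal of cofinality at
least `ℵ₂` belongs to `ℙ`, while no cardinal of cofinality less than `ℵ₂` does. -/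
theorem result :
    ℶ_ (ω_ 2) ∈ PathCardinals.{u} ∧
    (∀ κ : Cardinal.{u}, κ.IsStrongLimit → κ.IsSingular → ℵ_ 2 ≤ κ.ord.cof →
      κ ∈ PathCardinals) ∧
    (∀ κ ∈ PathCardinals.{u}, ℵ_ 2 ≤ κ.ord.cof) :=
  ⟨main.1, fun κ h1 h2 h3 => (main.2.1 κ h1 h2).2 h3, main.2.2⟩

end Pool.Agent.Results.MP_ebc4cb_lc.PathCardinalsNonempty
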